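import Pool.Agent.X185.IG.Pres

/-!
# Integrability of finitely presented groups is undecidable

A group `G` is integrable if it is isomorphic to the derived subgroup of some group `H`
(`Pool.Agent.X185.IG.Integrable`; here `H : Type`, which is no restriction for the finitely
generated groups considered: if such a group has an integral, it has a finitely generated one).
`Grp n R` is the group with the finite presentation `⟨x_0, …, x_{n-1} | R⟩`, where `R` is a finite
list of words; a word is a list of letters `(i, true) = x_i`, `(i, false) = x_i⁻¹`.

Proof in short. Let `⟨X | R⟩` be a finite presentation with undecidable word problem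
(Novikov-Boone). From a word `w` one computes a finite presentation of a perfect group `Q_w` (each
generator is conjugate to its square by a generator) which is trivial if `w = 1` and nontrivial if
`w ≠ 1`. Let `G_w = (Q_w * Q_w * Q_w) ⋊ F`, where the free group `F` of rank two permutes the three
copies through a homomorphism onto `S₃`. If `w = 1`, then `G_w = F` is the derived subgroup of a
mapping torus of `F`. If `w ≠ 1`, then `P = Q_w * Q_w * Q_w` is the largest perfect subgroup of
`G_w` and `P C(P)` is the kernel of `G_w → S₃`, hence this kernel is characteristic; if `G_w` were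
the derived subgroup of `H`, the homomorphism `G_w → S₃` would extend to `H`, as `S₃` is complete,
and the sign homomorphism of `H` would be nontrivial on the derived subgroup.
-/

set_option autoImplicit false

namespace Pool.Agent.Results.MP_b13100_lc.IntegrabilityUndecidable

open Pool.Agent.X185.IG

theorem fixed : ∃ n : ℕ, ¬ ComputablePred (fun R : List (List (ℕ × Bool)) =>
    Integrable (Grp n R)) := by
  classical
  obtain ⟨m, R, W, hW, hund⟩ := Pool.Agent.Helper270.WP.word_problem
  set Rl : List (List (Fin m × Bool)) := R.toList.map FreeGroup.toWord with hRl
  have hR : {x | ∃ r ∈ Rl, x = FreeGroup.mk r} = (R : Set (FreeGroup (Fin m))) := by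
    ext x
    constructor
    · rintro ⟨r, hr, rfl⟩
      rw [hRl, List.mem_map] at hr
      obtain ⟨y, hy, rfl⟩ := hr
      rw [FreeGroup.mk_toWord]
      exact Finset.mem_toList.1 hy
    · intro hx
      exact ⟨x.toWord, List.mem_map.2 ⟨x, Finset.mem_toList.2 hx, rfl⟩, FreeGroup.mk_toWord.symm⟩
  refine ⟨nG m, fun hcomp => hund ?_⟩
  obtain ⟨f, hf, hfe⟩ := ComputablePred.computable_iff.1 hcomp
  have key : ∀ n, (FreeGroup.mk (W n) ∈ Subgroup.normalClosure (R : Set (FreeGroup (Fin m)))) ↔
      f (relP Rl (W n)) = true := by
    intro n
    have h1 : Integrable (Grp (nG m) (relP Rl (W n))) ↔ f (relP Rl (W n)) = true :=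
      iff_of_eq (congrFun hfe _)
    rw [← h1]
    constructor
    · intro h
      exact yes_int Rl (W n) (by rw [hR]; exact h)
    · intro h
      by_contra hn
      exact no_int Rl (W n) (by rw [hR]; exact hn) h
  exact ComputablePred.computable_iff.2 ⟨_, hf.comp ((primrec_relP Rl).to_comp.comp hW),
    funext fun n => propext (key n)⟩

/-- The integrability problem for finite presentations is undecidable, already for presentations
with a certain fixed number `n` of generators: there is no algorithm which decides from `R` whether
the group `⟨x_0, …, x_{n-1} | R⟩` is the derived subgroup of some group. -/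
theorem result :
    (∃ n : ℕ, ¬ ComputablePred (fun R : List (List (ℕ × Bool)) => Integrable (Grp n R))) ∧
    ¬ ComputablePred (fun p : ℕ × List (List (ℕ × Bool)) => Integrable (Grp p.1 p.2)) := by
  refine ⟨fixed, fun h => ?_⟩
  obtain ⟨n, hn⟩ := fixed
  apply hn
  obtain ⟨f, hf, hfe⟩ := ComputablePred.computable_iff.1 h
  exact ComputablePred.computable_iff.2 ⟨fun R => f (n, R),
    hf.comp (Computable.pair (Computable.const n) Computable.id),
    funext fun R => congrFun hfe (n, R)⟩

end Pool.Agent.Results.MP_b13100_lc.IntegrabilityUndecidable
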